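import Mathlib

set_option autoImplicit false

/-!
# Non-uniqueness of the smallest non-bipartite regular graphs of diameter 2 and girth 4

For every `k` whose least prime divisor is `11` we give a graph in the class `F(k,2)` with exactly
`3k - k/11` vertices which is not isomorphic to `G_k(11, k/11)`.  It is a blow-up of a Vega graph on
12 vertices.
-/

namespace Pool.Agent.Results.MP_903317_co.VegaBlowup

open Finset SimpleGraph

/-- The class `F(k,d)`: `k`-regular, not bipartite, of diameter exactly `d` and of girth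
exactly `2d`. -/
def InF (k d : ℕ) {V : Type} (G : SimpleGraph V) : Prop :=
  (∀ v, (G.neighborSet v).ncard = k) ∧ ¬ G.IsBipartite ∧ G.ediam = (d : ℕ∞) ∧
    G.egirth = ((2 * d : ℕ) : ℕ∞)

/-- `f(k,d)`: the least order of a (finite) graph in `F(k,d)`, infinity if there is none. -/
noncomputable def f (k d : ℕ) : ℕ∞ :=
  ⨅ (n : ℕ) (_ : ∃ G : SimpleGraph (Fin n), InF k d G), (n : ℕ∞)

/-- The graph `G_k(p,q)`, `k = pq`: the vertex set is `ℤ/(3p-1)qℤ`, and `i,j` are adjacent if and
only if `i - j ≡ 1 + 3n (mod 3p-1)` for some `n ∈ {0,…,p-1}`. -/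
def Gpq (p q : ℕ) : SimpleGraph (ZMod ((3 * p - 1) * q)) where
  Adj i j := ∃ n : ℕ, n < p ∧ (i.val : ℤ) - j.val ≡ 1 + 3 * n [ZMOD (3 * p - 1)]
  symm := ⟨by
    rintro i j ⟨n, hn, h⟩
    refine ⟨p - 1 - n, by omega, ?_⟩
    have hc : ((p - 1 - n : ℕ) : ℤ) = p - 1 - n := by omega
    rw [hc]
    rw [Int.modEq_iff_dvd] at h ⊢
    obtain ⟨c, hc⟩ := h
    exact ⟨1 - c, by linear_combination -hc⟩⟩
  loopless := ⟨by
    rintro i ⟨n, hn, h⟩
    rw [Int.modEq_iff_dvd] at h
    have h1 : (3 * (p : ℤ) - 1) ∣ 1 + 3 * n := by simpa using h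
    have := Int.le_of_dvd (by omega) h1
    omega⟩

/-- The statement of the question: for every `k ≥ 2` whose least prime divisor `p` is at least 5,
`f(k,2) = 3k - k/p`, and every graph in `F(k,2)` with exactly `3k - k/p` vertices is isomorphic
to `G_k(p,k/p)`. -/
def Conjecture : Prop :=
  ∀ k : ℕ, 2 ≤ k → 5 ≤ k.minFac →
    f k 2 = ((3 * k - k / k.minFac : ℕ) : ℕ∞) ∧
    ∀ (V : Type) [Fintype V] (G : SimpleGraph V), InF k 2 G →
      Fintype.card V = 3 * k - k / k.minFac → Nonempty (G ≃g Gpq k.minFac (k / k.minFac))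

section base

/-- The base graph (a Vega graph on 12 vertices), as a table of neighbourhoods. -/
def tab : Fin 12 → List (Fin 12) :=
  ![[9, 6, 3, 2], [4, 9, 6, 3], [0, 4, 10, 7], [0, 1, 10, 7], [1, 2, 8, 11], [7, 6, 8],
    [0, 1, 5, 11, 10], [2, 3, 5, 9, 11], [4, 5, 10, 9], [0, 1, 7, 8], [2, 3, 6, 8], [4, 6, 7]]

/-- The base graph. -/
def B : SimpleGraph (Fin 12) where
  Adj i j := j ∈ tab i
  symm := ⟨by decide⟩
  loopless := ⟨by decide⟩

instance : DecidableRel B.Adj := fun i j => inferInstanceAs (Decidable (j ∈ tab i))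

/-- The weights. -/
def w : Fin 12 → ℕ := ![1, 3, 3, 1, 3, 2, 4, 4, 3, 3, 3, 2]

theorem w_sum : ∑ i, w i = 32 := by decide

theorem w_pos : ∀ i, 0 < w i := by decide

theorem w_deg : ∀ i, ∑ j ∈ univ.filter (fun j => B.Adj i j), w j = 11 := by decide

theorem B_tri : ∀ a b c, B.Adj a b → B.Adj b c → ¬ B.Adj c a := by decide

theorem B_diam : ∀ a b, B.Adj a b ∨ ∃ c, B.Adj a c ∧ B.Adj b c := by decide

end base

section blowup

variable {V : Type} (π : V → Fin 12) (t : ℕ)

theorem blow_deg [Fintype V] (hπ : ∀ j, #(univ.filter (fun x => π x = j)) = t * w j) (v : V) :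
    ((B.comap π).neighborSet v).ncard = 11 * t := by
  classical
  have h1 : (B.comap π).neighborSet v = ((univ.filter (fun x => B.Adj (π v) (π x)) : Finset V) : Set V) := by
    ext x; simp
  rw [h1, Set.ncard_coe_finset]
  rw [Finset.card_eq_sum_card_fiberwise (f := π) (t := univ.filter (fun j => B.Adj (π v) j))
    (by intro x hx; simpa using hx)]
  rw [← w_deg (π v), Finset.sum_mul]
  refine Finset.sum_congr rfl fun j hj => ?_
  rw [mul_comm, ← hπ j]
  congr 1
  ext x
  simp only [mem_filter, mem_univ, true_and] at hj ⊢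
  constructor
  · rintro ⟨_, h⟩; exact h
  · rintro rfl; exact ⟨hj, rfl⟩

variable {π}

theorem blow_bip (s : Fin 12 → V) (hs : ∀ j, π (s j) = j) : ¬ (B.comap π).IsBipartite := by
  rintro ⟨c⟩
  have h : ∀ a b : Fin 12, B.Adj a b → c (s a) ≠ c (s b) := fun a b hab =>
    c.valid (by simpa [hs] using hab)
  have h1 := h 0 9 (by decide)
  have h2 := h 9 1 (by decide)
  have h3 := h 1 4 (by decide)
  have h4 := h 4 2 (by decide)
  have h5 := h 2 0 (by decide)
  omega

theorem blow_diam (s : Fin 12 → V) (hs : ∀ j, π (s j) = j) : (B.comap π).ediam = 2 := by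
  apply le_antisymm
  · apply ediam_le_of_edist_le
    intro u v
    by_cases huv : u = v
    · subst huv; simp
    by_cases ha : (B.comap π).Adj u v
    · rw [edist_eq_one_iff_adj.2 ha]; norm_num
    · have : (B.comap π).edist u v = 2 := by
        rw [edist_eq_two_iff]
        refine ⟨huv, ha, ?_⟩
        rcases B_diam (π u) (π v) with h | ⟨c, h1, h2⟩
        · exact absurd h ha
        · refine ⟨s c, ?_⟩
          rw [mem_commonNeighbors]
          constructor
          · simpa [hs] using h1
          · simpa [hs] using h2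
      rw [this]
  · have : (B.comap π).edist (s 0) (s 1) = 2 := by
      rw [edist_eq_two_iff]
      refine ⟨?_, ?_, s 9, ?_⟩
      · intro h
        have := congrArg π h
        rw [hs, hs] at this
        exact absurd this (by decide)
      · simp only [comap_adj, hs]; decide
      · rw [mem_commonNeighbors]
        constructor
        · simp only [comap_adj, hs]; decide
        · simp only [comap_adj, hs]; decide
    rw [← this]
    exact edist_le_ediam

theorem four_le {V : Type} (G : SimpleGraph V)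
    (h : ∀ a b c, G.Adj a b → G.Adj b c → ¬ G.Adj c a) : 4 ≤ G.egirth := by
  rw [SimpleGraph.le_egirth]
  intro a w hw
  have h3 := hw.three_le_length
  by_contra hcon
  have hl : w.length = 3 := by
    push Not at hcon
    have : w.length < 4 := by exact_mod_cast hcon
    omega
  match w, hl with
  | .cons h1 (.cons h2 (.cons h3 .nil)), _ => exact h _ _ _ h1 h2 h3

theorem blow_girth (s : Fin 12 → V) (hs : ∀ j, π (s j) = j) : (B.comap π).egirth = (4 : ℕ) := by
  have hne : ∀ i j : Fin 12, i ≠ j → s i ≠ s j := by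
    intro i j hij h
    apply hij
    rw [← hs i, ← hs j, h]
  apply le_antisymm
  · have h1 : (B.comap π).Adj (s 0) (s 9) := by simp only [comap_adj, hs]; decide
    have h2 : (B.comap π).Adj (s 9) (s 1) := by simp only [comap_adj, hs]; decide
    have h3 : (B.comap π).Adj (s 1) (s 6) := by simp only [comap_adj, hs]; decide
    have h4 : (B.comap π).Adj (s 6) (s 0) := by simp only [comap_adj, hs]; decide
    have n1 := hne 0 9 (by decide)
    have n2 := hne 0 1 (by decide)
    have n3 := hne 0 6 (by decide)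
    have n4 := hne 9 1 (by decide)
    have n5 := hne 9 6 (by decide)
    have n6 := hne 1 6 (by decide)
    let w : (B.comap π).Walk (s 0) (s 0) := .cons h1 (.cons h2 (.cons h3 (.cons h4 .nil)))
    have hc : w.IsCycle :=
      { edges_nodup := by
          simp [w]; aesop
        ne_nil := by simp [w]
        support_nodup := by
          simp [w]; aesop }
    simpa [w] using SimpleGraph.egirth_le_length hc
  · exact four_le _ (fun a b c => B_tri _ _ _)

theorem blow_inF [Fintype V] (hπ : ∀ j, #(univ.filter (fun x => π x = j)) = t * w j) (ht : 0 < t) :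
    InF (11 * t) 2 (B.comap π) := by
  have hs : ∀ j, ∃ x, π x = j := by
    intro j
    have : 0 < #(univ.filter (fun x => π x = j)) := by
      rw [hπ j]; exact Nat.mul_pos ht (w_pos j)
    obtain ⟨x, hx⟩ := Finset.card_pos.1 this
    exact ⟨x, by simpa using hx⟩
  choose s hs using hs
  exact ⟨blow_deg π t hπ, blow_bip s hs, blow_diam s hs, blow_girth s hs⟩

end blowup

section noniso

/-- Adjacency of residues modulo 32. -/
def P (x y : Fin 32) : Bool := decide (∃ n : Fin 11, ((x.val : ℤ) - y.val - (1 + 3 * n)) % 32 = 0)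

theorem P_twin : ∀ x y : Fin 32, (∀ r : Fin 32, P x r = P y r) → x = y := by
  decide +kernel

theorem adj_iff {t : ℕ} (ht : 0 < t) (a : ZMod ((3 * 11 - 1) * t)) (r : Fin 32) :
    (Gpq 11 t).Adj a ((r.val : ℕ) : ZMod ((3 * 11 - 1) * t)) ↔
      P ⟨a.val % 32, Nat.mod_lt _ (by norm_num)⟩ r = true := by
  have hr : (((r.val : ℕ) : ZMod ((3 * 11 - 1) * t))).val = r.val := by
    rw [ZMod.val_natCast, Nat.mod_eq_of_lt]
    have := r.isLt
    nlinarith
  unfold P
  rw [decide_eq_true_iff]
  show (∃ n : ℕ, n < 11 ∧ (a.val : ℤ) - (((r.val : ℕ) : ZMod ((3 * 11 - 1) * t))).val ≡ 1 + 3 * n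
    [ZMOD (3 * (11 : ℕ) - 1)]) ↔ _
  rw [hr]
  have key : ∀ n : ℕ, ((a.val : ℤ) - (r.val : ℕ) ≡ 1 + 3 * n [ZMOD (3 * (11 : ℕ) - 1)]) ↔
      (((a.val % 32 : ℕ) : ℤ) - (r.val : ℕ) - (1 + 3 * n)) % 32 = 0 := by
    intro n
    rw [Int.ModEq]
    push_cast
    omega
  constructor
  · rintro ⟨n, hn, h⟩
    exact ⟨⟨n, hn⟩, (key n).1 h⟩
  · rintro ⟨n, h⟩
    exact ⟨n, n.isLt, (key n).2 h⟩

theorem twin {t : ℕ} (ht : 0 < t) (a b : ZMod ((3 * 11 - 1) * t))
    (h : ∀ z, (Gpq 11 t).Adj a z ↔ (Gpq 11 t).Adj b z) : a.val % 32 = b.val % 32 := by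
  have := P_twin ⟨a.val % 32, Nat.mod_lt _ (by norm_num)⟩ ⟨b.val % 32, Nat.mod_lt _ (by norm_num)⟩
    (fun r => by
      have := h (((r.val : ℕ) : ZMod ((3 * 11 - 1) * t)))
      rw [adj_iff ht, adj_iff ht] at this
      exact Bool.eq_iff_iff.2 this)
  simpa using congrArg Fin.val this

theorem not_iso {V : Type} [Fintype V] (π : V → Fin 12) {t : ℕ}
    (hπ : ∀ j, #(univ.filter (fun x => π x = j)) = t * w j) (ht : 0 < t) :
    IsEmpty ((B.comap π) ≃g Gpq 11 t) := by
  classical
  constructor
  intro φ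
  have : NeZero ((3 * 11 - 1) * t) := ⟨by omega⟩
  have h6 := hπ 6
  have hmaps : ∀ x ∈ univ.filter (fun x => π x = 6), (φ x).val / 32 ∈ range t := by
    intro x _
    rw [mem_range]
    have := (φ x).val_lt
    omega
  have hinj : ∀ x ∈ univ.filter (fun x => π x = 6), ∀ y ∈ univ.filter (fun x => π x = 6),
      (φ x).val / 32 = (φ y).val / 32 → x = y := by
    intro x hx y hy hxy
    simp only [mem_filter, mem_univ, true_and] at hx hy
    have hm : (φ x).val % 32 = (φ y).val % 32 := by
      apply twin ht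
      intro z
      obtain ⟨z', rfl⟩ := φ.surjective z
      rw [φ.map_adj_iff, φ.map_adj_iff, comap_adj, comap_adj, hx, hy]
    have : (φ x).val = (φ y).val := by omega
    exact φ.injective (ZMod.val_injective _ this)
  have hle := Finset.card_le_card_of_injOn _ hmaps (fun x hx y hy h => hinj x hx y hy h)
  rw [h6, card_range] at hle
  have : w 6 = 4 := rfl
  rw [this] at hle
  omega

end noniso

/-- The existence of a suitable partition of `Fin n`. -/
theorem exists_pi (t n : ℕ) (hn : n = 32 * t) :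
    ∃ π : Fin n → Fin 12, ∀ j, #(univ.filter (fun x => π x = j)) = t * w j := by
  classical
  have hcard : Fintype.card (Fin n) = Fintype.card (Σ i : Fin 12, Fin (t * w i)) := by
    rw [Fintype.card_fin, Fintype.card_sigma]
    simp only [Fintype.card_fin]
    rw [← Finset.mul_sum, w_sum, hn, mul_comm]
  let e := Fintype.equivOfCardEq hcard
  refine ⟨fun x => (e x).1, fun j => ?_⟩
  have h1 : #(univ.filter (fun x : Fin n => (e x).1 = j)) =
      #(univ.filter (fun y : (Σ i : Fin 12, Fin (t * w i)) => y.1 = j)) := by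
    refine Finset.card_bij (fun x _ => e x) ?_ ?_ ?_
    · intro x hx; simpa using hx
    · intro x _ y _ h; exact e.injective h
    · intro y hy; exact ⟨e.symm y, by simpa using hy, by simp⟩
  rw [h1]
  have h2 : univ.filter (fun y : (Σ i : Fin 12, Fin (t * w i)) => y.1 = j) =
      (univ : Finset (Fin (t * w j))).map ⟨fun k => ⟨j, k⟩, fun a b h => by simpa using h⟩ := by
    ext ⟨i, k⟩
    simp only [mem_filter, mem_univ, true_and, mem_map]
    constructor
    · rintro rfl; exact ⟨k, rfl⟩
    · rintro ⟨k', hk⟩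
      exact (congrArg Sigma.fst hk).symm
  rw [h2, card_map, card_univ, Fintype.card_fin]

/-- **The smallest graphs are not unique** when the least prime divisor of `k` is 11. -/
theorem result :
    (∀ k : ℕ, k.minFac = 11 → ∃ G : SimpleGraph (Fin (3 * k - k / 11)),
      InF k 2 G ∧ IsEmpty (G ≃g Gpq 11 (k / 11))) ∧
    ¬ Conjecture := by
  have main : ∀ k : ℕ, k.minFac = 11 → ∃ G : SimpleGraph (Fin (3 * k - k / 11)),
      InF k 2 G ∧ IsEmpty (G ≃g Gpq 11 (k / 11)) := by
    intro k hk
    have hd : 11 ∣ k := hk ▸ Nat.minFac_dvd k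
    obtain ⟨t, rfl⟩ := hd
    have ht : 0 < t := by
      rcases Nat.eq_zero_or_pos t with h | h
      · subst h; simp at hk
      · exact h
    have hq : 11 * t / 11 = t := by omega
    obtain ⟨π, hπ⟩ := exists_pi t (3 * (11 * t) - 11 * t / 11) (by omega)
    refine ⟨B.comap π, blow_inF t hπ ht, ?_⟩
    exact not_iso π (fun j => by rw [hπ j, hq]) (by rw [hq]; exact ht)
  refine ⟨main, fun hC => ?_⟩
  have h11 : (11 : ℕ).minFac = 11 := by norm_num
  obtain ⟨G, hG, hiso⟩ := main 11 h11
  have := (hC 11 (by norm_num) (by norm_num [h11])).2 (Fin (3 * 11 - 11 / 11)) G hG (by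
    rw [Fintype.card_fin, h11])
  rw [h11] at this
  exact this.elim (fun e => hiso.elim e)

end Pool.Agent.Results.MP_903317_co.VegaBlowup
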